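import Pool.Agent.Y594.NT.Stm

/-! COMB: the combinatorial lemma -/

set_option autoImplicit false
set_option linter.all false

namespace Pool.Agent.Y447.NT

open Finset

/-- one large index: a single exponent carries the mass -/
theorem single {κ c A H : ℝ} {J : ℕ} (m : ℕ → ℝ) (v h : ℝ) (hm : ∀ j, 0 ≤ m j)
    (hsum : ∑ j ∈ range J, m j ≤ v) (hv1 : v ≤ 1 + κ) (hv2 : 1 - κ ≤ v)
    (hw : ∑ j ∈ range J, ((j : ℝ) + 1) * m j + ((J : ℝ) + 1) * (v - ∑ j ∈ range J, m j) ≤ h + κ)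
    (hh : h ≤ H + κ) (hh2 : H - κ ≤ h)
    (hE : ∀ j, j < J → m j ≤ κ + max 0 (3 / 2 - (h - ((j : ℝ) + 1) * m j)))
    (hH : 3 / 2 + 1 / 1000 ≤ H) (hHA : H ≤ A) (hκ : 0 < κ) (hκc : κ ≤ c / 100)
    (hJκ : (J : ℝ) * κ ≤ c / 8) (hc : c ≤ 1 / 200) (hJ : 8 * (A + 1) ≤ c * ((J : ℝ) + 1)) :
    ∃ a < J, 1 - c ≤ m a ∧ (a : ℝ) * m a ≤ H - 1 + 3 * κ ∧ H - 3 / 2 - 2 * κ ≤ a * m a ∧
      m a ≤ 1 + κ := by
  classical
  have hA : 3 / 2 ≤ A := by linarith
  have hJ0 : (0 : ℝ) ≤ J := Nat.cast_nonneg J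
  set M := ∑ j ∈ range J, m j with hM
  have ht0 : 0 ≤ v - M := by linarith
  have hW0 : 0 ≤ ∑ j ∈ range J, ((j : ℝ) + 1) * m j :=
    Finset.sum_nonneg fun j _ => mul_nonneg (by positivity) (hm j)
  have htail : v - M ≤ c / 4 := by
    by_contra hcon
    push Not at hcon
    have h1 : ((J : ℝ) + 1) * (c / 4) ≤ ((J : ℝ) + 1) * (v - M) :=
      mul_le_mul_of_nonneg_left hcon.le (by positivity)
    nlinarith
  -- weights
  have hsplit : ∑ j ∈ range J, ((j : ℝ) + 1) * m j = ∑ j ∈ range J, (j : ℝ) * m j + M := by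
    rw [hM, ← Finset.sum_add_distrib]
    exact Finset.sum_congr rfl fun j _ => by ring
  have hjm : ∑ j ∈ range J, (j : ℝ) * m j ≤ H - 1 + 3 * κ := by
    have h1 : 0 ≤ (J : ℝ) * (v - M) := mul_nonneg hJ0 ht0
    nlinarith
  have hj1m : ∑ j ∈ range J, ((j : ℝ) + 1) * m j ≤ H + 2 * κ := by
    have h1 : 0 ≤ ((J : ℝ) + 1) * (v - M) := mul_nonneg (by positivity) ht0
    linarith
  -- the large exponents
  set S := (range J).filter fun j => κ < m j with hS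
  have hSJ : S ⊆ range J := Finset.filter_subset _ _
  have hSE : ∀ j ∈ S, H - 3 / 2 - 2 * κ ≤ (j : ℝ) * m j := by
    intro j hj
    obtain ⟨h1, h2⟩ := Finset.mem_filter.1 hj
    have h3 := hE j (Finset.mem_range.1 h1)
    rcases max_cases 0 (3 / 2 - (h - ((j : ℝ) + 1) * m j)) with ⟨h4, h5⟩ | ⟨h4, h5⟩
    · rw [h4] at h3; linarith
    · rw [h4] at h3; nlinarith
  have hS1 : ∀ j ∈ S, 1 ≤ j := by
    intro j hj
    by_contra h0
    have h1 : j = 0 := by omega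
    have h2 := hSE j hj
    rw [h1] at h2
    push_cast at h2
    nlinarith
  have hSsum : 1 - c ≤ ∑ j ∈ S, m j := by
    have h1 : M = ∑ j ∈ S, m j + ∑ j ∈ (range J).filter (fun j => ¬ κ < m j), m j := by
      rw [hM, hS, Finset.sum_filter_add_sum_filter_not]
    have h2 : ∑ j ∈ (range J).filter (fun j => ¬ κ < m j), m j ≤ (J : ℝ) * κ := by
      calc ∑ j ∈ (range J).filter (fun j => ¬ κ < m j), m j
          ≤ ∑ j ∈ (range J).filter (fun j => ¬ κ < m j), κ :=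
            Finset.sum_le_sum fun j hj => not_lt.1 (Finset.mem_filter.1 hj).2
        _ ≤ ∑ j ∈ range J, κ := Finset.sum_le_sum_of_subset_of_nonneg (Finset.filter_subset _ _)
            fun _ _ _ => hκ.le
        _ = (J : ℝ) * κ := by rw [Finset.sum_const, Finset.card_range, nsmul_eq_mul]
    linarith
  have hSj : ∑ j ∈ S, (j : ℝ) * m j ≤ H - 1 + 3 * κ :=
    (Finset.sum_le_sum_of_subset_of_nonneg hSJ fun j _ _ =>
      mul_nonneg (Nat.cast_nonneg j) (hm j)).trans hjm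
  have hSj1 : ∑ j ∈ S, ((j : ℝ) + 1) * m j ≤ H + 2 * κ :=
    (Finset.sum_le_sum_of_subset_of_nonneg hSJ fun j _ _ =>
      mul_nonneg (by positivity) (hm j)).trans hj1m
  have hH2 : 2 - 2 * c ≤ H + 2 * κ := by
    have h1 : ∑ j ∈ S, 2 * m j ≤ ∑ j ∈ S, ((j : ℝ) + 1) * m j := by
      refine Finset.sum_le_sum fun j hj => ?_
      have h2 : (1 : ℝ) ≤ j := by exact_mod_cast hS1 j hj
      nlinarith [hm j]
    rw [← Finset.mul_sum] at h1
    linarith
  have hcardS : (S.card : ℝ) * (H - 3 / 2 - 2 * κ) ≤ H - 1 + 3 * κ := by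
    have h1 : ∑ j ∈ S, (H - 3 / 2 - 2 * κ) ≤ ∑ j ∈ S, (j : ℝ) * m j := Finset.sum_le_sum hSE
    rw [Finset.sum_const, nsmul_eq_mul] at h1
    linarith
  have hc3 : S.card < 3 := by
    by_contra hcon
    push Not at hcon
    have h1 : (3 : ℝ) ≤ S.card := by exact_mod_cast hcon
    have h2 : 0 ≤ H - 3 / 2 - 2 * κ := by linarith
    nlinarith
  have hc2 : S.card ≠ 2 := by
    intro hcon
    rw [hcon] at hcardS
    push_cast at hcardS
    obtain ⟨x, y, hxy, hSxy⟩ := Finset.card_eq_two.1 hcon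
    have main : ∀ a b : ℕ, a ∈ S → b ∈ S → a < b → S = {a, b} → False := by
      intro a b ha hb hab hSab
      have ha1 : (1 : ℝ) ≤ a := by exact_mod_cast hS1 a ha
      have hb2 : (2 : ℝ) ≤ b := by
        have := hS1 a ha
        exact_mod_cast (by omega : 2 ≤ b)
      have hbe := hSE b hb
      rw [hSab, Finset.sum_pair hab.ne] at hSsum hSj1
      have hma := hm a
      have hmb := hm b
      nlinarith
    rcases lt_or_gt_of_ne hxy with hlt | hgt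
    · exact main x y (by rw [hSxy]; simp) (by rw [hSxy]; simp) hlt hSxy
    · exact main y x (by rw [hSxy]; simp) (by rw [hSxy]; simp) hgt (by rw [hSxy, Finset.pair_comm])
  have hc0 : S.card ≠ 0 := by
    intro hcon
    rw [Finset.card_eq_zero] at hcon
    rw [hcon, Finset.sum_empty] at hSsum
    linarith
  have hc1 : S.card = 1 := by omega
  obtain ⟨a, ha⟩ := Finset.card_eq_one.1 hc1
  have haS : a ∈ S := by rw [ha]; simp
  have haJ := Finset.mem_range.1 (hSJ haS)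
  rw [ha, Finset.sum_singleton] at hSsum hSj
  refine ⟨a, haJ, hSsum, hSj, hSE a haS, ?_⟩
  have h1 : m a ≤ M := Finset.single_le_sum (fun j _ => hm j) (hSJ haS)
  linarith

/-- the two exponents agree -/
theorem agree {κ c A H x y : ℝ} {a b : ℕ} (hκ : 0 < κ) (hκc : κ ≤ c / 100) (hA : 1 ≤ A)
    (hc : c * (100 * (A + 1)) = 1) (hHA : H ≤ A)
    (hx1 : 1 - c ≤ x) (hx2 : (a : ℝ) * x ≤ H - 1 + 3 * κ) 
    (hy1 : 1 - c ≤ y) (hy2 : (b : ℝ) * y ≤ H - 1 + 3 * κ) (hy3 : H - 3 / 2 - 2 * κ ≤ b * y)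
    (hy4 : y ≤ 1 + κ) (hab : b < a) : False := by
  have hc0 : 0 < c := by linarith
  have hc200 : c ≤ 1 / 200 := by nlinarith
  have hcA : c * A ≤ 1 / 100 := by nlinarith
  have h1 : (b : ℝ) + 1 ≤ a := by exact_mod_cast hab
  have hb0 : (0 : ℝ) ≤ b := Nat.cast_nonneg b
  have h2 : ((b : ℝ) + 1) * (1 - c) ≤ H - 1 + 3 * κ := by
    calc ((b : ℝ) + 1) * (1 - c) ≤ a * x := by
          apply mul_le_mul h1 hx1 (by linarith) (by linarith)
      _ ≤ _ := hx2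
  have h3 : H - 3 / 2 - 2 * κ ≤ b * (1 + κ) := hy3.trans (mul_le_mul_of_nonneg_left hy4 hb0)
  have h4 : (b : ℝ) * (1 - c) ≤ A := by nlinarith
  have h5 : (b : ℝ) ≤ 2 * A := by nlinarith
  have h6 : c * b ≤ 1 / 50 := by nlinarith
  have h7 : κ * b ≤ 1 / 5000 := by nlinarith
  nlinarith

theorem comb : Pool.Agent.Y594.NT.S_COMB := by
  intro η A hη
  obtain ⟨A₁, hA₁⟩ : ∃ A₁ : ℝ, A₁ = |A| + 1 := ⟨_, rfl⟩
  have hA1 : 1 ≤ A₁ := by rw [hA₁]; linarith [abs_nonneg A]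
  have hAA : A ≤ A₁ := by rw [hA₁]; linarith [le_abs_self A]
  obtain ⟨c, hc⟩ : ∃ c : ℝ, c = 1 / (100 * (A₁ + 1)) := ⟨_, rfl⟩
  have hc0 : 0 < c := by rw [hc]; positivity
  have hcA : c * (100 * (A₁ + 1)) = 1 := by rw [hc]; field_simp
  have hc200 : c ≤ 1 / 200 := by nlinarith
  obtain ⟨J, hJ⟩ : ∃ J : ℕ, J = ⌈8 * (A₁ + 1) / c⌉₊ + 2 := ⟨_, rfl⟩
  have hJ2 : 2 ≤ J := by omega
  have hJ' : 8 * (A₁ + 1) ≤ c * ((J : ℝ) + 1) := by
    have h1 : 8 * (A₁ + 1) / c ≤ (⌈8 * (A₁ + 1) / c⌉₊ : ℝ) := Nat.le_ceil _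
    have h2 : (J : ℝ) = (⌈8 * (A₁ + 1) / c⌉₊ : ℝ) + 2 := by rw [hJ]; push_cast; ring
    rw [div_le_iff₀ hc0] at h1
    rw [h2]
    nlinarith
  have hJr : (2 : ℝ) ≤ J := by exact_mod_cast hJ2
  obtain ⟨κ, hκd⟩ : ∃ κ : ℝ, κ = min (η / 10) (c / (100 * J)) := ⟨_, rfl⟩
  have hκ0 : 0 < κ := by
    rw [hκd]
    apply lt_min
    · positivity
    · positivity
  have hκη : κ ≤ η / 10 := by rw [hκd]; exact min_le_left _ _
  have hκJ0 : κ ≤ c / (100 * J) := by rw [hκd]; exact min_le_right _ _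
  have hJκ1 : (J : ℝ) * κ ≤ c / 100 := by
    have h1 : κ * (100 * J) ≤ c := by rwa [le_div_iff₀ (by positivity)] at hκJ0
    linarith
  have hJκ : (J : ℝ) * κ ≤ c / 8 := by linarith
  have hκc : κ ≤ c / 100 := by nlinarith
  refine ⟨κ, hκ0, J, hJ2, ?_⟩
  intro n hn v m h H hm hsum hv1 hv2 hw hhH hr hH1 hHA0 hpair hE hlast
  obtain ⟨r₁, r₂, hr12, hr1, hr2⟩ := hr
  have hHA : H ≤ A₁ := hHA0.trans hAA
  rcases le_or_gt (3 / 2 + 1 / 1000) H with hI | hII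
  · -- Case I
    obtain ⟨a, haJ, ha1, ha2, ha3, ha4⟩ := single (m r₁) (v r₁) (h r₁) (hm r₁) (hsum r₁) (hv1 r₁)
      (hv2 r₁) (hw r₁ J le_rfl) (hhH r₁) hr1 (hE r₁) hI hHA hκ0 hκc hJκ hc200 hJ'
    obtain ⟨b, hbJ, hb1, hb2, hb3, hb4⟩ := single (m r₂) (v r₂) (h r₂) (hm r₂) (hsum r₂) (hv1 r₂)
      (hv2 r₂) (hw r₂ J le_rfl) (hhH r₂) hr2 (hE r₂) hI hHA hκ0 hκc hJκ hc200 hJ'
    have hab : a = b := by
      rcases lt_trichotomy a b with hlt | heq | hgt
      · exact (agree hκ0 hκc hA1 hcA hHA hb1 hb2 ha1 ha2 ha3 ha4 hlt).elim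
      · exact heq
      · exact (agree hκ0 hκc hA1 hcA hHA ha1 ha2 hb1 hb2 hb3 hb4 hgt).elim
    subst hab
    rcases hpair r₁ r₂ hr12 a haJ with h1 | h1
    · linarith
    · linarith [h1.1]
  · -- Case II
    have hm0 : ∀ i, 2 - H - 4 * κ ≤ m i 0 := by
      intro i
      have h1 := hw i 1 (by omega)
      simp only [Finset.sum_range_one] at h1
      push_cast at h1
      have h2 := hv2 i
      have h3 := hhH i
      linarith
    have hpr : ∀ p r : Fin n, p ≠ r → H - κ ≤ h r → m p 0 + m r 0 ≤ 1 + κ := by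
      intro p r hpr hr
      rcases hpair p r hpr 0 (by omega) with h1 | h1
      · exact h1
      · exfalso; linarith [h1.2]
    have hup : ∀ p, m p 0 ≤ H - 1 + 5 * κ := by
      intro p
      by_cases hp : p = r₁
      · have h1 := hpr p r₂ (by rw [hp]; exact hr12) hr2
        linarith [hm0 r₂]
      · have h1 := hpr p r₁ hp hr1
        linarith [hm0 r₁]
    have hHlow : 3 / 2 - 5 * κ ≤ H := by
      have h1 := hpr r₁ r₂ hr12 hr2
      linarith [hm0 r₁, hm0 r₂]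
    have hm1 : ∀ i, 1 / 2 - 3 / 1000 - 15 * κ ≤ m i 1 := by
      intro i
      have h1 := hw i 2 hJ2
      simp only [Finset.sum_range_succ, Finset.sum_range_zero] at h1
      push_cast at h1
      have h2 := hv2 i
      have h3 := hhH i
      have h4 := hup i
      linarith
    have hrest : ∀ i, v i - m i 0 - m i 1 ≤ 4 / 1000 + 20 * κ := by
      intro i
      linarith [hm0 i, hm1 i, hv1 i]
    -- two further indices
    obtain ⟨p, k, h1, h2, h3⟩ : ∃ p k : Fin n, r₁ ≠ p ∧ r₁ ≠ k ∧ p ≠ k := by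
      have hcard : 2 ≤ ((Finset.univ : Finset (Fin n)).erase r₁).card := by
        rw [Finset.card_erase_of_mem (Finset.mem_univ _), Finset.card_univ, Fintype.card_fin]
        omega
      obtain ⟨p, hp, k, hk, hpk⟩ := Finset.one_lt_card.1 (show 1 < _ from hcard)
      exact ⟨p, k, (Finset.ne_of_mem_erase hp).symm, (Finset.ne_of_mem_erase hk).symm, hpk⟩
    have h4 := hlast r₁ p k h1 h2 h3
    have h5 : max 0 (1 - (h r₁ - m r₁ 0)) ≤ 1 / 1000 + 12 * κ := by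
      apply max_le
      · linarith
      · linarith [hup r₁]
    have h6 := hrest p
    have h7 := hrest k
    have h8 := hm0 r₁
    linarith

end Pool.Agent.Y447.NT
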